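import Mathlib
import Pool.Agent.W258.POT.Ext

/-- For every `n ≥ 8` there is a real positive semidefinite `n × n` matrix `A` whose Schur power
matrix (rows and columns indexed by the permutations, entries `∏ i, A (σ i) (τ i)`) has an
eigenvalue larger than the permanent of `A`: the permanent-on-top property fails for real
matrices of every size `n ≥ 8`. -/
theorem Pool.Agent.Results.MP_102303_co.RealPOTFails.result :
    ∀ n : ℕ, 8 ≤ n → ∃ A : Matrix (Fin n) (Fin n) ℝ, A.PosSemidef ∧
      ∃ μ : ℝ, A.permanent < μ ∧
        Module.End.HasEigenvalue (Matrix.toLin' (Matrix.of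
          (fun (σ τ : Equiv.Perm (Fin n)) => ∏ i : Fin n, A (σ i) (τ i)))) μ := by
  intro n hn
  exact W258.POT.pot_fails n hn
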